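import Pool.Agent.P.MP_9f774b_al.Final

/-!
The number of groups of order below `2 ^ m` whose nonabelian composition factors lie in a small
family is at most the number of groups of order `2 ^ m`, for all large `m`.
-/

set_option autoImplicit false

open N2980dcf5

namespace Pool.Agent.Results.MP_9f774b_al.SumByCompositionFactors

/-- Every nonabelian composition factor `H / N` of `G` (`H` subnormal in `G`, `N` normal in `H`,
`H / N` simple and nonabelian) is isomorphic to a member of the family `F`. -/
def FactorsIn (F : ∀ k : ℕ, Set (Group (Fin k))) (G : Type) [Group G] : Prop :=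
  ∀ (H : Subgroup G) (N : Subgroup H) [N.Normal], H.IsSubnormal → IsSimpleGroup (H ⧸ N) →
    (∃ x y : H ⧸ N, x * y ≠ y * x) →
    ∃ k : ℕ, ∃ T ∈ F k, Nonempty (@MulEquiv (H ⧸ N) (Fin k) _ T.toMul)

/-- The number of isomorphism classes of groups of order `n` all of whose nonabelian composition
factors are isomorphic to members of `F`. -/
noncomputable def gIn (F : ∀ k : ℕ, Set (Group (Fin k))) (n : ℕ) : ℕ :=
  Nat.card (Quot (α := {G : Group (Fin n) // @FactorsIn F (Fin n) G})
    fun G H => isomorphic G.1 H.1)

theorem result (F : ∀ k : ℕ, Set (Group (Fin k))) (C : ℕ)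
    (hF : ∀ k, (F k).ncard ≤ k ^ (C * Nat.log 2 k)) :
    ∃ M, ∀ m ≥ M, ∑ n ∈ Finset.range (2 ^ m), gIn F n ≤ g (2 ^ m) :=
  Pool.Agent.P.MP_9f774b_al.sum_le_g F C hF

end Pool.Agent.Results.MP_9f774b_al.SumByCompositionFactors
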